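import Pool.Agent.Q96.CF.Sel

/-!
# Claw-free cubic graphs: the rest graph and the exchange argument
-/

set_option autoImplicit false
set_option linter.unusedSectionVars false

namespace Q96.CF

open SimpleGraph Finset

variable {V : Type*} [Fintype V] {G : SimpleGraph V}

/-- the chosen centre of a diamond -/
def C0 (G : SimpleGraph V) (ι : V → ℕ) (v : V) : Prop :=
  Cen G v ∧ ∀ u, G.Adj v u → Cen G u → ι v < ι u

/-- deleted vertices -/
def Xd (G : SimpleGraph V) (ι : V → ℕ) (S : Finset V) (v : V) : Prop :=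
  v ∈ S ∨ C0 G ι v ∨ K G v

/-- the rest graph -/
def R (G : SimpleGraph V) (ι : V → ℕ) (S : Finset V) : SimpleGraph V where
  Adj u v := G.Adj u v ∧ ¬ Xd G ι S u ∧ ¬ Xd G ι S v
  symm := ⟨fun _ _ h => ⟨h.1.symm, h.2.2, h.2.1⟩⟩
  loopless := ⟨fun _ h => h.1.ne rfl⟩

def D2 (G : SimpleGraph V) (ι : V → ℕ) (S : Finset V) (u : V) : Prop :=
  ∃ x y, x ≠ y ∧ (R G ι S).Adj u x ∧ (R G ι S).Adj u y

def Cyc (G : SimpleGraph V) (ι : V → ℕ) (S : Finset V) (v : V) : Prop :=
  ∀ u, (R G ι S).Reachable v u → D2 G ι S u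

variable {ι : V → ℕ} {I : Finset V} {φ : Finset V → Finset V} {S : Finset V}

lemma Dia.C0_iff {v w a d : V} (D : Dia G v w a d) : C0 G ι v ↔ ι v < ι w := by
  constructor
  · intro h
    exact h.2 w ((D.nv w).2 (Or.inl rfl)) D.cw
  · intro h
    refine ⟨D.cv, fun u hu hc => ?_⟩
    rcases (D.nv u).1 hu with rfl | rfl | rfl
    · exact h
    · exact absurd hc D.ta.not_cen
    · exact absurd hc D.td.not_cen

lemma Dia.C0_xor (hι : Function.Injective ι) {v w a d : V} (D : Dia G v w a d) :
    (C0 G ι v ∧ ¬ C0 G ι w) ∨ (¬ C0 G ι v ∧ C0 G ι w) := by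
  rw [D.C0_iff, D.swap1.C0_iff]
  have : ι v ≠ ι w := fun h => D.vw (hι h)
  omega

lemma P.not_C0 {v : V} (h : P G v) : ¬ C0 G ι v := fun h' => h.not_cen h'.1

lemma Tip.not_Xd (hG : CC G) (hS : Sel G I φ S) {v : V} (h : Tip G v) : ¬ Xd G ι S v := by
  rintro (h1 | h1 | h1)
  · exact (hS.pl v h1).not_tip h
  · exact h.not_cen h1.1
  · exact h1.noO hG h.1

lemma P.not_Xd (hG : CC G) {v : V} (h : P G v) (hv : v ∉ S) : ¬ Xd G ι S v := by
  rintro (h1 | h1 | h1)
  · exact hv h1
  · exact h.not_C0 h1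
  · exact h1.noO hG h.1

lemma R_plain (hG : CC G) (hS : Sel G I φ S) {v : V} (hv : P G v) (hvS : v ∉ S) :
    ∃ s m, Tri G v s m ∧ s ∈ S ∧ m ∉ S ∧ ∀ u, (R G ι S).Adj v u → u = m ∨ u = out G v := by
  obtain ⟨s, hs, hsT⟩ := hS.ex v hv
  obtain ⟨a, b, h⟩ := hv.loc hG
  have : ∃ m, Tri G v s m := by
    rcases (h.T_eq hG s).1 hsT with rfl | rfl | rfl
    · exact absurd hs hvS
    · exact ⟨b, h⟩
    · exact ⟨a, h.swap⟩
  obtain ⟨m, h⟩ := this
  have hm : m ∉ S := by
    intro hm
    have := hS.un s hs m hm (((h.rot hG).T_eq hG m).2 (Or.inr (Or.inl rfl)))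
    exact h.ab this.symm
  refine ⟨s, m, h, hs, hm, fun u hu => ?_⟩
  rcases (h.nv u).1 hu.1 with rfl | rfl | rfl
  · exact absurd (Or.inl hs) hu.2.2
  · exact Or.inl rfl
  · exact Or.inr rfl

lemma R_tip (hG : CC G) (hι : Function.Injective ι) {a : V} (h : Tip G a) :
    ∃ v w d, Dia G v w a d ∧ C0 G ι v ∧ ¬ C0 G ι w ∧
      ∀ u, (R G ι S).Adj a u → u = w ∨ u = out G a := by
  obtain ⟨v, w, d, D⟩ := h.loc hG
  have : ∃ v w, Dia G v w a d ∧ C0 G ι v ∧ ¬ C0 G ι w := by
    rcases D.C0_xor hι with h1 | h1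
    · exact ⟨v, w, D, h1⟩
    · exact ⟨w, v, D.swap1, h1.2, h1.1⟩
  obtain ⟨v, w, D, h1, h2⟩ := this
  refine ⟨v, w, d, D, h1, h2, fun u hu => ?_⟩
  rcases (D.na u).1 hu.1 with rfl | rfl | rfl
  · exact absurd (Or.inr (Or.inl h1)) hu.2.2
  · exact Or.inl rfl
  · exact Or.inr rfl

lemma R_cen (hG : CC G) (hι : Function.Injective ι) {v : V} (h : Cen G v) (h0 : ¬ C0 G ι v) :
    ∃ w a d, Dia G v w a d ∧ C0 G ι w ∧ ∀ u, (R G ι S).Adj v u → u = a ∨ u = d := by
  obtain ⟨w, a, d, D⟩ := h.loc hG
  have hw : C0 G ι w := by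
    rcases D.C0_xor hι with h1 | h1
    · exact absurd h1.1 h0
    · exact h1.2
  refine ⟨w, a, d, D, hw, fun u hu => ?_⟩
  rcases (D.nv u).1 hu.1 with rfl | rfl | rfl
  · exact absurd (Or.inr (Or.inl hw)) hu.2.2
  · exact Or.inl rfl
  · exact Or.inr rfl

lemma R_le2 (hG : CC G) (hι : Function.Injective ι) (hS : Sel G I φ S) (v : V) :
    ∃ x y, ∀ u, (R G ι S).Adj v u → u = x ∨ u = y := by
  by_cases hX : Xd G ι S v
  · exact ⟨v, v, fun u hu => absurd hX hu.2.1⟩
  rcases trich G v with h | h | h | h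
  · exact absurd (Or.inr (Or.inr h)) hX
  · obtain ⟨w, a, d, -, -, h'⟩ := R_cen (S := S) hG hι h (fun h0 => hX (Or.inr (Or.inl h0)))
    exact ⟨a, d, h'⟩
  · obtain ⟨_, w, _, -, -, -, h'⟩ := R_tip (S := S) hG hι h
    exact ⟨w, out G v, h'⟩
  · obtain ⟨_, m, -, -, -, h'⟩ := R_plain (ι := ι) hG hS h (fun h0 => hX (Or.inl h0))
    exact ⟨m, out G v, h'⟩

/-- the neighbours of a vertex of degree two in the rest graph -/
lemma D2.nbrs (hG : CC G) (hι : Function.Injective ι) (hS : Sel G I φ S) {v x y : V}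
    (hxy : x ≠ y) (hx : (R G ι S).Adj v x) (hy : (R G ι S).Adj v y) :
    ∀ u, (R G ι S).Adj v u → u = x ∨ u = y := by
  obtain ⟨p, q, h⟩ := R_le2 hG hι hS v
  intro u hu
  have h1 := h x hx
  have h2 := h y hy
  have h3 := h u hu
  grind

lemma not_D2_tip (hG : CC G) (hι : Function.Injective ι) {a : V} (h : Tip G a)
    (hX : Xd G ι S (out G a)) : ¬ D2 G ι S a := by
  rintro ⟨x, y, hxy, hx, hy⟩
  obtain ⟨v, w, d, -, -, -, h'⟩ := R_tip (S := S) hG hι h
  have h1 : x = w := by
    rcases h' x hx with h1 | h1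
    · exact h1
    · subst h1; exact absurd hX hx.2.2
  have h2 : y = w := by
    rcases h' y hy with h1 | h1
    · exact h1
    · subst h1; exact absurd hX hy.2.2
  exact hxy (h1.trans h2.symm)

/-- parity: a finite graph cannot have exactly one vertex of odd degree -/
lemma parity {A : Finset V} {r : V} (hr : r ∈ A) (F : SimpleGraph V)
    (h1 : ∃ x ∈ A, F.Adj r x ∧ ∀ u ∈ A, F.Adj r u → u = x)
    (h2 : ∀ v ∈ A, v ≠ r → ∃ x ∈ A, ∃ y ∈ A, x ≠ y ∧ F.Adj v x ∧ F.Adj v y ∧
      ∀ u ∈ A, F.Adj v u → u = x ∨ u = y) : False := by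
  classical
  let H : SimpleGraph V :=
    { Adj := fun u v => F.Adj u v ∧ u ∈ A ∧ v ∈ A
      symm := ⟨fun _ _ h => ⟨h.1.symm, h.2.2, h.2.1⟩⟩
      loopless := ⟨fun _ h => h.1.ne rfl⟩ }
  have hdr : H.degree r = 1 := by
    obtain ⟨x, hx, hrx, hu⟩ := h1
    rw [← H.card_neighborFinset_eq_degree, Finset.card_eq_one]
    refine ⟨x, ?_⟩
    ext u
    rw [SimpleGraph.mem_neighborFinset, Finset.mem_singleton]
    constructor
    · rintro ⟨h, -, hA⟩
      exact hu u hA h
    · rintro rfl
      exact ⟨hrx, hr, hx⟩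
  have hd : ∀ v, v ≠ r → Even (H.degree v) := by
    intro v hv
    by_cases hA : v ∈ A
    · obtain ⟨x, hx, y, hy, hxy, h3, h4, h5⟩ := h2 v hA hv
      have : H.degree v = 2 := by
        rw [← H.card_neighborFinset_eq_degree, Finset.card_eq_two]
        refine ⟨x, y, hxy, ?_⟩
        ext u
        rw [SimpleGraph.mem_neighborFinset, Finset.mem_insert, Finset.mem_singleton]
        constructor
        · rintro ⟨h, -, hA⟩
          exact h5 u hA h
        · rintro (rfl | rfl)
          · exact ⟨h3, hA, hx⟩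
          · exact ⟨h4, hA, hy⟩
      rw [this]; exact even_two
    · have : H.degree v = 0 := by
        rw [← H.card_neighborFinset_eq_degree, Finset.card_eq_zero]
        ext u
        rw [SimpleGraph.mem_neighborFinset]
        simp only [Finset.notMem_empty, iff_false]
        rintro ⟨-, h, -⟩
        exact hA h
      rw [this]; exact Even.zero
  have hodd : (Finset.univ.filter (fun v => Odd (H.degree v))) = {r} := by
    ext v
    simp only [Finset.mem_filter, Finset.mem_univ, true_and, Finset.mem_singleton]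
    constructor
    · intro h
      by_contra hv
      exact (Nat.not_even_iff_odd.2 h) (hd v hv)
    · rintro rfl
      rw [hdr]; exact odd_one
  have := H.even_card_odd_degree_vertices
  rw [hodd, Finset.card_singleton] at this
  exact absurd this (by decide)

/-- the exchange step -/
lemma switch (hG : CC G) (hι : Function.Injective ι)
    (hS : Sel G I φ S) {t : V} (ht : P G t) (htS : t ∉ S) (htI : t ∈ I) (hI : Ind G I)
    (hto : Tip G (out G t)) (hc : Cyc G ι S t) :
    ∃ S', Sel G I φ S' ∧ (∀ v, Cyc G ι S' v → Cyc G ι S v) ∧ ¬ Cyc G ι S' t := by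
  classical
  obtain ⟨s, r, hT, hs, hr, hnt⟩ := R_plain (ι := ι) hG hS ht htS
  have hsT : s ∈ T G t := (hT.T_eq hG s).2 (Or.inr (Or.inl rfl))
  have hTs : T G s = T G t := T_eq hG ht hsT
  have hsI : s ∈ I := hI.cl t htI s hsT
  have hStr : Str G s := ⟨t, by rw [hTs]; exact self_T t, hto⟩
  have hso : Tip G (out G s) := hS.st s hs hsI hStr
  have hPs : P G s := hT.pa
  have hPr : P G r := hT.pb
  have hst : s ≠ t := hT.va.symm
  have hrs : r ≠ s := hT.ab.symm
  have hrt : r ≠ t := hT.vb.symm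
  set S' : Finset V := insert t (S.erase s) with hS'
  have mS' : ∀ x, x ∈ S' ↔ x = t ∨ (x ≠ s ∧ x ∈ S) := by
    intro x; rw [hS', Finset.mem_insert, Finset.mem_erase]
  have hSel : Sel G I φ S' := by
    refine ⟨?_, ?_, ?_, ?_, ?_, ?_⟩
    · intro u hu
      rcases (mS' u).1 hu with rfl | h
      · exact ht
      · exact hS.pl u h.2
    · intro v hv
      obtain ⟨u, hu, huT⟩ := hS.ex v hv
      by_cases hus : u = s
      · subst hus
        refine ⟨t, (mS' t).2 (Or.inl rfl), ?_⟩
        rw [← T_eq hG hv huT, hTs]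
        exact self_T t
      · exact ⟨u, (mS' u).2 (Or.inr ⟨hus, hu⟩), huT⟩
    · intro u hu w hw hwu
      rcases (mS' u).1 hu with rfl | h <;> rcases (mS' w).1 hw with rfl | h'
      · rfl
      · exfalso
        rw [← hTs] at hwu
        exact h'.1 (hS.un s hs w h'.2 hwu)
      · exfalso
        have h1 := T_eq hG (hS.pl u h.2) hwu
        have h2 : s ∈ T G u := by rw [← h1, ← hTs]; exact self_T s
        exact h.1 (hS.un u h.2 s hs h2).symm
      · exact hS.un u h.2 w h'.2 hwu
    · intro u hu huI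
      rcases (mS' u).1 hu with rfl | h
      · exact absurd htI huI
      · exact hS.nI u h.2 huI
    · intro u hu huI hus
      rcases (mS' u).1 hu with rfl | h
      · exact hto
      · exact hS.st u h.2 huI hus
    · intro u hu huI hus
      rcases (mS' u).1 hu with rfl | h
      · exact absurd ⟨s, hsT, hso⟩ hus
      · exact hS.ph u h.2 huI hus
  have hXt : ¬ Xd G ι S t := ht.not_Xd hG htS
  have hXs : Xd G ι S s := Or.inl hs
  have hXt' : Xd G ι S' t := Or.inl ((mS' t).2 (Or.inl rfl))
  have hXs' : ¬ Xd G ι S' s := hPs.not_Xd hG (fun h => by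
    rcases (mS' s).1 h with h | h
    · exact hst h
    · exact h.1 rfl)
  have hX : ∀ x, x ≠ s → x ≠ t → (Xd G ι S' x ↔ Xd G ι S x) := by
    intro x h1 h2
    unfold Xd
    rw [mS' x]
    tauto
  have hXr : ¬ Xd G ι S r := hPr.not_Xd hG hr
  have hXr' : ¬ Xd G ι S' r := by rw [hX r hrs hrt]; exact hXr
  have hRR : ∀ u w, u ≠ s → u ≠ t → w ≠ s → w ≠ t →
      ((R G ι S).Adj u w ↔ (R G ι S').Adj u w) := by
    intro u w h1 h2 h3 h4
    show (_ ∧ _ ∧ _) ↔ (_ ∧ _ ∧ _)
    rw [hX u h1 h2, hX w h3 h4]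
  refine ⟨S', hSel, ?_, ?_⟩
  · -- monotone
    have hDt := hc t (Reachable.refl t)
    have htr : (R G ι S).Adj t r := ⟨(hT.nv r).2 (Or.inr (Or.inl rfl)), hXt, hXr⟩
    have hos : ¬ D2 G ι S (out G s) := by
      apply not_D2_tip hG hι hso
      rw [hPs.1.out_out hG]; exact hXs
    have hot : ¬ D2 G ι S' (out G t) := by
      apply not_D2_tip hG hι hto
      rw [ht.1.out_out hG]; exact hXt'
    have hnr : ∀ u, (R G ι S).Adj r u → u = t ∨ u = out G r := by
      intro u hu
      have := ((hT.rot hG).rot hG).nv u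
      rcases this.1 hu.1 with h | h | h
      · exact Or.inl h
      · subst h; exact absurd hXs hu.2.2
      · exact Or.inr h
    intro v hv
    -- the component of v in the new graph avoids s and t
    have hCt : ¬ (R G ι S').Reachable v t := by
      intro h
      obtain ⟨x, y, -, hx, -⟩ := hv t h
      exact hx.2.1 hXt'
    have hCot : ¬ (R G ι S').Reachable v (out G t) := fun h => hot (hv _ h)
    have hCs : ¬ (R G ι S').Reachable v s := by
      intro hs1
      have hsr : (R G ι S').Adj s r := ⟨(hT.na r).2 (Or.inr (Or.inl rfl)), hXs', hXr'⟩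
      have hr1 : (R G ι S').Reachable v r := hs1.trans hsr.reachable
      let A : Finset V := Finset.univ.filter
        (fun u => (R G ι S').Reachable v u ∧ (R G ι S).Reachable t u)
      have mA : ∀ u, u ∈ A ↔ (R G ι S').Reachable v u ∧ (R G ι S).Reachable t u := by
        intro u; simp [A]
      have hnes : ∀ u, (R G ι S).Reachable t u → u ≠ s := by
        rintro u hu rfl
        obtain ⟨x, y, -, hx, -⟩ := hc u hu
        exact hx.2.1 hXs
      have hnet : ∀ u, (R G ι S').Reachable v u → u ≠ t := by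
        rintro u hu rfl
        exact hCt hu
      have hstep : ∀ u ∈ A, ∀ x, x ≠ t → (R G ι S).Adj u x → x ∈ A := by
        intro u hu x hxt hux
        have hu' := (mA u).1 hu
        have h1 : (R G ι S).Reachable t x := hu'.2.trans hux.reachable
        rw [mA]
        refine ⟨?_, h1⟩
        have h2 := (hRR u x (hnes u hu'.2) (hnet u hu'.1) (hnes x h1) hxt).1 hux
        exact hu'.1.trans h2.reachable
      have hrA : r ∈ A := (mA r).2 ⟨hr1, htr.reachable⟩
      apply parity hrA (R G ι S)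
      · have hDr := hc r htr.reachable
        obtain ⟨x, y, hxy, hx, hy⟩ := hDr
        have hor : (R G ι S).Adj r (out G r) := by
          rcases hnr x hx with h1 | h1 <;> rcases hnr y hy with h2 | h2
          · exact absurd (h1.trans h2.symm) hxy
          · rw [← h2]; exact hy
          · rw [← h1]; exact hx
          · rw [← h1]; exact hx
        have hort : out G r ≠ t := by
          intro e
          have := hT.oe hG
          exact (((hT.rot hG).rot hG).oa) e.symm
        refine ⟨out G r, hstep r hrA _ hort hor, hor, fun u hu hru => ?_⟩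
        rcases hnr u hru with h | h
        · exact absurd h (hnet u ((mA u).1 hu).1)
        · exact h
      · intro u hu hur
        have hu' := (mA u).1 hu
        obtain ⟨x, y, hxy, hx, hy⟩ := hc u hu'.2
        have hne : ∀ z, (R G ι S).Adj u z → z ≠ t := by
          rintro z hz rfl
          rcases hnt u hz.symm with h | h
          · exact hur h
          · subst h; exact hCot hu'.1
        refine ⟨x, hstep u hu x (hne x hx) hx, y, hstep u hu y (hne y hy) hy, hxy, hx, hy, ?_⟩
        intro z _ hz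
        exact D2.nbrs hG hι hS hxy hx hy z hz
    have hCr : ¬ (R G ι S').Reachable v r := by
      intro h
      apply hCs
      have hrs' : (R G ι S').Adj r s := ⟨((hT.na r).2 (Or.inr (Or.inl rfl))).symm, hXr', hXs'⟩
      exact h.trans hrs'.reachable
    have hadj : ∀ u, (R G ι S').Reachable v u → ∀ x, ((R G ι S).Adj u x ↔ (R G ι S').Adj u x) := by
      intro u hu x
      have hus : u ≠ s := by rintro rfl; exact hCs hu
      have hut : u ≠ t := by rintro rfl; exact hCt hu
      by_cases hxs : x = s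
      · subst hxs
        constructor
        · intro h; exact absurd hXs h.2.2
        · intro h; exact absurd (hu.trans h.reachable) hCs
      by_cases hxt : x = t
      · subst hxt
        constructor
        · intro h
          rcases hnt u h.symm with h1 | h1
          · subst h1; exact absurd hu hCr
          · subst h1; exact absurd hu hCot
        · intro h; exact absurd hXt' h.2.2
      exact hRR u x hus hut hxs hxt
    have hreach : ∀ u, (R G ι S).Reachable v u → (R G ι S').Reachable v u := by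
      rintro u ⟨p⟩
      induction p using SimpleGraph.Walk.concatRec with
      | Hnil => exact Reachable.refl _
      | Hconcat p h ih =>
        rename_i a b c
        have h1 := ih hv hCt hCot hCs hCr hadj
        exact h1.trans ((hadj _ h1 _).1 h).reachable
    intro u hu
    have hu' := hreach u hu
    obtain ⟨x, y, hxy, hx, hy⟩ := hv u hu'
    exact ⟨x, y, hxy, (hadj u hu' x).2 hx, (hadj u hu' y).2 hy⟩
  · intro h
    obtain ⟨x, y, -, hx, -⟩ := h t (Reachable.refl t)
    exact hx.2.1 hXt'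

end Q96.CF
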