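import Pool.Agent.Q96.CF.Cyc
import Pool.Agent.Q107.OddCycle

/-!
# Claw-free cubic graphs: the two packings and the 2-colouring of the rest
-/

set_option autoImplicit false
set_option linter.unusedSectionVars false

namespace Q96.CF

open SimpleGraph Finset

variable {V : Type*} [Fintype V] {G : SimpleGraph V}

lemma exists_min (hG : CC G) {ι : V → ℕ} (hι : Function.Injective ι) :
    ∃ (I : Finset V) (φ : Finset V → Finset V) (S : Finset V), Ind G I ∧ Sel G I φ S ∧
      (∀ v ∈ I, ∀ w ∈ I, ¬ Str G v → ¬ Str G w → φ (T G v) = φ (T G w) → T G v = T G w) ∧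
      (∀ t, P G t → t ∉ S → t ∈ I → Tip G (out G t) → ¬ Cyc G ι S t) := by
  classical
  obtain ⟨I, hI, hI'⟩ := exists_I hG
  obtain ⟨φ, hφ, hφ'⟩ := exists_phi hG hI
  obtain ⟨S0, hS0⟩ := exists_Sel hG hI' hI hφ
  have hne : (Finset.univ.filter (fun S : Finset V => Sel G I φ S)).Nonempty :=
    ⟨S0, Finset.mem_filter.2 ⟨Finset.mem_univ _, hS0⟩⟩
  obtain ⟨S, hS, hmin⟩ := Finset.exists_min_image _
    (fun S : Finset V => (Finset.univ.filter (fun v => Cyc G ι S v)).card) hne
  rw [Finset.mem_filter] at hS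
  refine ⟨I, φ, S, hI, hS.2, hφ', fun t ht htS htI hto hc => ?_⟩
  obtain ⟨S', hS', h1, h2⟩ := switch hG hι hS.2 ht htS htI hI hto hc
  have h3 := hmin S' (Finset.mem_filter.2 ⟨Finset.mem_univ _, hS'⟩)
  have h4 : (Finset.univ.filter (fun v => Cyc G ι S' v)) ⊂
      (Finset.univ.filter (fun v => Cyc G ι S v)) := by
    rw [Finset.ssubset_iff_of_subset]
    · exact ⟨t, Finset.mem_filter.2 ⟨Finset.mem_univ _, hc⟩, fun h => h2 (Finset.mem_filter.1 h).2⟩
    · intro v hv
      exact Finset.mem_filter.2 ⟨Finset.mem_univ _, h1 v (Finset.mem_filter.1 hv).2⟩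
  exact absurd (Finset.card_lt_card h4) (not_lt.2 h3)

variable {ι : V → ℕ} {I : Finset V} {φ : Finset V → Finset V} {S : Finset V}

/-- the centre of the broken diamond of a closed component -/
def B (G : SimpleGraph V) (ι : V → ℕ) (S : Finset V) (v : V) : Prop :=
  Cen G v ∧ ¬ C0 G ι v ∧ Cyc G ι S v ∧
    ∀ w, (R G ι S).Reachable v w → Cen G w → ¬ C0 G ι w → ι v ≤ ι w

def X3 (G : SimpleGraph V) (ι : V → ℕ) (I S : Finset V) (v : V) : Prop :=
  (v ∈ S ∧ v ∉ I) ∨ C0 G ι v

def X4 (G : SimpleGraph V) (ι : V → ℕ) (I S : Finset V) (v : V) : Prop :=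
  (v ∈ S ∧ v ∈ I) ∨ B G ι S v

/-- what is left for the two independent sets -/
def RR (G : SimpleGraph V) (ι : V → ℕ) (I S : Finset V) : SimpleGraph V where
  Adj u v := G.Adj u v ∧ (¬ K G u ∧ ¬ X3 G ι I S u ∧ ¬ X4 G ι I S u) ∧
    (¬ K G v ∧ ¬ X3 G ι I S v ∧ ¬ X4 G ι I S v)
  symm := ⟨fun _ _ h => ⟨h.1.symm, h.2.2, h.2.1⟩⟩
  loopless := ⟨fun _ h => h.1.ne rfl⟩

lemma RR_le {u v : V} (h : (RR G ι I S).Adj u v) : (R G ι S).Adj u v := by
  have key : ∀ x, (¬ K G x ∧ ¬ X3 G ι I S x ∧ ¬ X4 G ι I S x) → ¬ Xd G ι S x := by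
    rintro x ⟨h1, h2, h3⟩ (h4 | h4 | h4)
    · by_cases hI : x ∈ I
      · exact h3 (Or.inl ⟨h4, hI⟩)
      · exact h2 (Or.inl ⟨h4, hI⟩)
    · exact h2 (Or.inr h4)
    · exact h1 h4
  exact ⟨h.1, key _ h.2.1, key _ h.2.2⟩

lemma R_reach_ne {v u : V} (hv : ¬ Xd G ι S v) (h : (R G ι S).Reachable v u) :
    ¬ Xd G ι S u := by
  obtain ⟨p⟩ := h
  induction p with
  | nil => exact hv
  | cons h p ih => exact ih h.2.2

lemma D2.not_Xd {v : V} (h : D2 G ι S v) : ¬ Xd G ι S v := by
  obtain ⟨x, y, -, hx, -⟩ := h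
  exact hx.2.1

lemma Cyc.reach {v u : V} (h : Cyc G ι S v) (hu : (R G ι S).Reachable v u) : Cyc G ι S u :=
  fun w hw => h w (hu.trans hw)

theorem RR_col (hG : CC G) (hι : Function.Injective ι) (hS : Sel G I φ S) :
    (RR G ι I S).Colorable 2 := by
  classical
  by_contra hcol
  obtain ⟨v, p, hp, hodd⟩ := Q107.exists_odd_cycle hcol
  -- every vertex of the cycle has two neighbours on the cycle
  have h2 : ∀ x ∈ p.support, ∃ y z, y ≠ z ∧ y ∈ p.support ∧ z ∈ p.support ∧
      (RR G ι I S).Adj x y ∧ (RR G ι I S).Adj x z := by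
    intro x hx
    have hc := hp.rotate hx
    have hnil : ¬ (p.rotate x hx).Nil := hc.not_nil
    have hsup : ∀ y, y ∈ (p.rotate x hx).support ↔ y ∈ p.support := fun y =>
      SimpleGraph.Walk.mem_support_rotate_iff _ _ _
    refine ⟨(p.rotate x hx).snd, (p.rotate x hx).penultimate, hc.snd_ne_penultimate, ?_, ?_, ?_, ?_⟩
    · rw [← hsup]; exact SimpleGraph.Walk.getVert_mem_support _ _
    · rw [← hsup]; exact SimpleGraph.Walk.getVert_mem_support _ _
    · exact (p.rotate x hx).adj_snd hnil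
    · exact ((p.rotate x hx).adj_penultimate hnil).symm
  have hcl : ∀ x ∈ p.support, ∀ u, (R G ι S).Adj x u → u ∈ p.support := by
    intro x hx u hu
    obtain ⟨y, z, hyz, hy, hz, h3, h4⟩ := h2 x hx
    rcases D2.nbrs hG hι hS hyz (RR_le h3) (RR_le h4) u hu with rfl | rfl
    · exact hy
    · exact hz
  have hcl' : ∀ x ∈ p.support, ∀ u, (R G ι S).Reachable x u → u ∈ p.support := by
    rintro x hx u ⟨q⟩
    induction q with
    | nil => exact hx
    | cons h q ih => exact ih (hcl _ hx _ h)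
  have hD : ∀ x ∈ p.support, D2 G ι S x := by
    intro x hx
    obtain ⟨y, z, hyz, hy, hz, h3, h4⟩ := h2 x hx
    exact ⟨y, z, hyz, RR_le h3, RR_le h4⟩
  have hCyc : ∀ x ∈ p.support, Cyc G ι S x := fun x hx u hu => hD u (hcl' x hx u hu)
  have hXn : ∀ x ∈ p.support, ¬ X4 G ι I S x := by
    intro x hx
    obtain ⟨y, z, hyz, hy, hz, h3, h4⟩ := h2 x hx
    exact h3.2.1.2.2
  -- no centres
  have hnc : ∀ x ∈ p.support, ¬ Cen G x := by
    intro x hx hcx
    have hne : (p.support.toFinset.filter (fun w => Cen G w ∧ ¬ C0 G ι w)).Nonempty := by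
      refine ⟨x, Finset.mem_filter.2 ⟨List.mem_toFinset.2 hx, hcx, fun h => ?_⟩⟩
      exact (hD x hx).not_Xd (Or.inr (Or.inl h))
    obtain ⟨m, hm, hmin⟩ := Finset.exists_min_image _ ι hne
    rw [Finset.mem_filter, List.mem_toFinset] at hm
    apply hXn m hm.1
    refine Or.inr ⟨hm.2.1, hm.2.2, hCyc m hm.1, fun w hw h3 h4 => ?_⟩
    exact hmin w (Finset.mem_filter.2 ⟨List.mem_toFinset.2 (hcl' m hm.1 w hw), h3, h4⟩)
  have hnt : ∀ x ∈ p.support, ¬ Tip G x := by
    intro x hx ht
    obtain ⟨y, z, hyz, hy, hz, h3, h4⟩ := h2 x hx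
    obtain ⟨v', w, d, D, -, -, h'⟩ := R_tip (S := S) hG hι ht
    rcases h' y (RR_le h3) with h5 | h5
    · subst h5; exact hnc _ hy D.cw
    · rcases h' z (RR_le h4) with h6 | h6
      · subst h6; exact hnc _ hz D.cw
      · exact hyz (h5.trans h6.symm)
  have hpl : ∀ x ∈ p.support, P G x := by
    intro x hx
    rcases trich G x with h | h | h | h
    · exact absurd (Or.inr (Or.inr h)) (hD x hx).not_Xd
    · exact absurd h (hnc x hx)
    · exact absurd h (hnt x hx)
    · exact h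
  -- the mates
  let H : SimpleGraph V :=
    { Adj := fun x y => x ∈ p.support ∧ y ∈ p.support ∧ x ≠ y ∧ y ∈ T G x
      symm := ⟨fun x y h => ⟨h.2.1, h.1, h.2.2.1.symm, mem_T_symm hG (hpl x h.1) h.2.2.2⟩⟩
      loopless := ⟨fun _ h => h.2.2.1 rfl⟩ }
  have hdeg : ∀ x ∈ p.support, H.degree x = 1 := by
    intro x hx
    have hxS : x ∉ S := fun h => (hD x hx).not_Xd (Or.inl h)
    obtain ⟨s, m, hT, hs, hm, h'⟩ := R_plain (ι := ι) hG hS (hpl x hx) hxS
    obtain ⟨y, z, hyz, hy, hz, h3, h4⟩ := h2 x hx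
    have hmsup : m ∈ p.support := by
      rcases h' y (RR_le h3) with h5 | h5
      · subst h5; exact hy
      · rcases h' z (RR_le h4) with h6 | h6
        · subst h6; exact hz
        · exact absurd (h5.trans h6.symm) hyz
    rw [← H.card_neighborFinset_eq_degree, Finset.card_eq_one]
    refine ⟨m, ?_⟩
    ext u
    rw [SimpleGraph.mem_neighborFinset, Finset.mem_singleton]
    constructor
    · rintro ⟨-, hu, hxu, huT⟩
      rcases (hT.T_eq hG u).1 huT with h5 | h5 | h5
      · exact absurd h5.symm hxu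
      · subst h5; exact absurd (Or.inl hs) (hD _ hu).not_Xd
      · exact h5
    · rintro rfl
      exact ⟨hx, hmsup, hT.vb, (hT.T_eq hG _).2 (Or.inr (Or.inr rfl))⟩
  have hdeg0 : ∀ x, x ∉ p.support → H.degree x = 0 := by
    intro x hx
    rw [← H.card_neighborFinset_eq_degree, Finset.card_eq_zero]
    ext u
    rw [SimpleGraph.mem_neighborFinset]
    simp only [Finset.notMem_empty, iff_false]
    rintro ⟨h, -⟩
    exact hx h
  have hoddset : (Finset.univ.filter (fun x => Odd (H.degree x))) = p.support.toFinset := by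
    ext x
    rw [Finset.mem_filter, List.mem_toFinset]
    constructor
    · rintro ⟨-, h⟩
      by_contra hx
      rw [hdeg0 x hx] at h
      exact absurd h (by decide)
    · intro hx
      refine ⟨Finset.mem_univ _, ?_⟩
      rw [hdeg x hx]; exact odd_one
  have hev := H.even_card_odd_degree_vertices
  rw [hoddset] at hev
  have hcard : p.support.toFinset.card = p.length := by
    have h5 : p.support.toFinset = p.support.tail.toFinset := by
      ext x
      rw [List.mem_toFinset, List.mem_toFinset]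
      constructor
      · intro hx
        rw [SimpleGraph.Walk.mem_support_iff] at hx
        rcases hx with rfl | hx
        · exact SimpleGraph.Walk.end_mem_tail_support hp.not_nil
        · exact hx
      · intro hx
        exact List.mem_of_mem_tail hx
    rw [h5, List.toFinset_card_of_nodup hp.support_nodup, List.length_tail,
      SimpleGraph.Walk.length_support]
    rfl
  rw [hcard] at hev
  exact absurd hodd (Nat.not_odd_iff_even.2 hev)

end Q96.CF
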