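import Mathlib

/-!
# Local structure of claw-free cubic graphs

Every vertex lies in a `K₄`, is a centre or a tip of a diamond, or is a vertex of a plain triangle.
-/

set_option autoImplicit false

namespace Q96.CF

open SimpleGraph

variable {V : Type*}

/-- cubic and claw-free, in elementary form -/
structure CC (G : SimpleGraph V) : Prop where
  nb : ∀ v, ∃ a b c, a ≠ b ∧ a ≠ c ∧ b ≠ c ∧ (∀ u, G.Adj v u ↔ u = a ∨ u = b ∨ u = c) ∧ G.Adj a b

/-- the edge `u v` lies in no triangle -/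
def Ou (G : SimpleGraph V) (u v : V) : Prop := G.Adj u v ∧ ∀ w, G.Adj u w → ¬ G.Adj v w

def HasO (G : SimpleGraph V) (v : V) : Prop := ∃ o, Ou G v o

def P (G : SimpleGraph V) (v : V) : Prop := HasO G v ∧ ∀ u, G.Adj v u → HasO G u

def Tip (G : SimpleGraph V) (v : V) : Prop := HasO G v ∧ ∃ u, G.Adj v u ∧ ¬ HasO G u

def K (G : SimpleGraph V) (v : V) : Prop := ∀ x y, G.Adj v x → G.Adj v y → x ≠ y → G.Adj x y

def Cen (G : SimpleGraph V) (v : V) : Prop := ¬ HasO G v ∧ ¬ K G v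

open Classical in
/-- the neighbour along the edge in no triangle -/
noncomputable def out (G : SimpleGraph V) (v : V) : V := if h : HasO G v then h.choose else v

variable {G : SimpleGraph V}

lemma Ou.symm {u v : V} (h : Ou G u v) : Ou G v u :=
  ⟨h.1.symm, fun w hw hw' => h.2 w hw' hw⟩

lemma HasO.out {v : V} (h : HasO G v) : Ou G v (out G v) := by
  unfold CF.out
  rw [dif_pos h]
  exact h.choose_spec

lemma HasO.out' {v : V} (h : HasO G v) : HasO G (CF.out G v) := ⟨v, h.out.symm⟩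

lemma Ou.nbrs (hG : CC G) {v o : V} (h : Ou G v o) : ∃ a b, a ≠ b ∧ a ≠ o ∧ b ≠ o ∧
    (∀ u, G.Adj v u ↔ u = a ∨ u = b ∨ u = o) ∧ G.Adj a b := by
  obtain ⟨a, b, c, hab, hac, hbc, hn, hadj⟩ := hG.nb v
  have ha : G.Adj v a := (hn a).2 (Or.inl rfl)
  have hb : G.Adj v b := (hn b).2 (Or.inr (Or.inl rfl))
  rcases (hn o).1 h.1 with rfl | rfl | rfl
  · exact absurd hadj (h.2 b hb)
  · exact absurd hadj.symm (h.2 a ha)
  · exact ⟨a, b, hab, hac, hbc, hn, hadj⟩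

lemma Ou.unique (hG : CC G) {v o o' : V} (h : Ou G v o) (h' : Ou G v o') : o' = o := by
  obtain ⟨a, b, hab, hao, hbo, hn, hadj⟩ := h.nbrs hG
  have ha : G.Adj v a := (hn a).2 (Or.inl rfl)
  have hb : G.Adj v b := (hn b).2 (Or.inr (Or.inl rfl))
  rcases (hn o').1 h'.1 with rfl | rfl | rfl
  · exact absurd hadj (h'.2 b hb)
  · exact absurd hadj.symm (h'.2 a ha)
  · rfl

lemma Ou.eq_out (hG : CC G) {v o : V} (h : Ou G v o) : CF.out G v = o :=
  h.unique hG (HasO.out ⟨o, h⟩)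

lemma HasO.out_out (hG : CC G) {v : V} (h : HasO G v) : CF.out G (CF.out G v) = v :=
  h.out.symm.eq_out hG

lemma nb3 (hG : CC G) {w p q r : V} (hpq : p ≠ q) (hpr : p ≠ r) (hqr : q ≠ r)
    (h1 : G.Adj w p) (h2 : G.Adj w q) (h3 : G.Adj w r) :
    ∀ u, G.Adj w u ↔ u = p ∨ u = q ∨ u = r := by
  classical
  obtain ⟨a, b, c, hab, hac, hbc, hn, -⟩ := hG.nb w
  have hsub : ({p, q, r} : Finset V) ⊆ {a, b, c} := by
    intro x hx
    simp only [Finset.mem_insert, Finset.mem_singleton] at hx ⊢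
    rcases hx with rfl | rfl | rfl
    · exact (hn _).1 h1
    · exact (hn _).1 h2
    · exact (hn _).1 h3
  have hc1 : ({p, q, r} : Finset V).card = 3 := by
    rw [Finset.card_eq_three]; exact ⟨p, q, r, hpq, hpr, hqr, rfl⟩
  have hc2 : ({a, b, c} : Finset V).card = 3 := by
    rw [Finset.card_eq_three]; exact ⟨a, b, c, hab, hac, hbc, rfl⟩
  have e : ({p, q, r} : Finset V) = {a, b, c} :=
    Finset.eq_of_subset_of_card_le hsub (by rw [hc1, hc2])
  intro u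
  rw [hn u]
  have := Finset.ext_iff.1 e u
  simp only [Finset.mem_insert, Finset.mem_singleton] at this
  exact this.symm

lemma third (hG : CC G) {a v w : V} (hvw : v ≠ w) (h1 : G.Adj a v) (h2 : G.Adj a w) :
    ∃ o, o ≠ v ∧ o ≠ w ∧ ∀ u, G.Adj a u ↔ u = v ∨ u = w ∨ u = o := by
  obtain ⟨p, q, r, hpq, hpr, hqr, hn, -⟩ := hG.nb a
  have hp : G.Adj a p := (hn p).2 (Or.inl rfl)
  have hq : G.Adj a q := (hn q).2 (Or.inr (Or.inl rfl))
  have hr : G.Adj a r := (hn r).2 (Or.inr (Or.inr rfl))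
  have : ∃ o, o ≠ v ∧ o ≠ w ∧ G.Adj a o := by
    by_cases c1 : p ≠ v ∧ p ≠ w
    · exact ⟨p, c1.1, c1.2, hp⟩
    by_cases c2 : q ≠ v ∧ q ≠ w
    · exact ⟨q, c2.1, c2.2, hq⟩
    by_cases c3 : r ≠ v ∧ r ≠ w
    · exact ⟨r, c3.1, c3.2, hr⟩
    exfalso
    grind
  obtain ⟨o, ho1, ho2, ho⟩ := this
  exact ⟨o, ho1, ho2, nb3 hG hvw ho1.symm ho2.symm h1 h2 ho⟩

/-- a diamond with centres `v, w` and tips `a, d` -/
structure Dia (G : SimpleGraph V) (v w a d : V) : Prop where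
  vw : v ≠ w
  va : v ≠ a
  vd : v ≠ d
  wa : w ≠ a
  wd : w ≠ d
  ad : a ≠ d
  nad : ¬ G.Adj a d
  cv : Cen G v
  cw : Cen G w
  ta : Tip G a
  td : Tip G d
  nv : ∀ u, G.Adj v u ↔ u = w ∨ u = a ∨ u = d
  nw : ∀ u, G.Adj w u ↔ u = v ∨ u = a ∨ u = d
  na : ∀ u, G.Adj a u ↔ u = v ∨ u = w ∨ u = out G a
  nd : ∀ u, G.Adj d u ↔ u = v ∨ u = w ∨ u = out G d

lemma Dia.swap1 {v w a d : V} (h : Dia G v w a d) : Dia G w v a d :=
  ⟨h.vw.symm, h.wa, h.wd, h.va, h.vd, h.ad, h.nad, h.cw, h.cv, h.ta, h.td, h.nw, h.nv,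
    fun u => by rw [h.na u]; tauto, fun u => by rw [h.nd u]; tauto⟩

lemma Dia.swap2 {v w a d : V} (h : Dia G v w a d) : Dia G v w d a :=
  ⟨h.vw, h.vd, h.va, h.wd, h.wa, h.ad.symm, fun h' => h.nad h'.symm, h.cv, h.cw, h.td, h.ta,
    fun u => by rw [h.nv u]; tauto, fun u => by rw [h.nw u]; tauto, h.nd, h.na⟩

lemma noO_nbrs (hG : CC G) {v : V} (h : ¬ HasO G v) : ∃ w a d, w ≠ a ∧ w ≠ d ∧ a ≠ d ∧
    (∀ u, G.Adj v u ↔ u = w ∨ u = a ∨ u = d) ∧ G.Adj w a ∧ G.Adj w d := by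
  obtain ⟨a, b, c, hab, hac, hbc, hn, hadj⟩ := hG.nb v
  have hc : G.Adj v c := (hn c).2 (Or.inr (Or.inr rfl))
  have : ∃ x, G.Adj v x ∧ G.Adj c x := by
    by_contra hno
    push Not at hno
    exact h ⟨c, hc, hno⟩
  obtain ⟨x, hx1, hx2⟩ := this
  rcases (hn x).1 hx1 with rfl | rfl | rfl
  · exact ⟨x, b, c, hab, hac, hbc, hn, hadj, hx2.symm⟩
  · exact ⟨x, a, c, hab.symm, hbc, hac, fun u => by rw [hn u]; tauto, hadj.symm, hx2.symm⟩
  · exact absurd rfl hx2.ne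

lemma tip_aux (hG : CC G) {v w a d : V} (hvw : v ≠ w) (hwa : w ≠ a) (_had : a ≠ d)
    (nad : ¬ G.Adj a d)
    (nv : ∀ u, G.Adj v u ↔ u = w ∨ u = a ∨ u = d) (nw : ∀ u, G.Adj w u ↔ u = v ∨ u = a ∨ u = d)
    (hv : ¬ HasO G v) :
    Tip G a ∧ ∀ u, G.Adj a u ↔ u = v ∨ u = w ∨ u = out G a := by
  have hav : G.Adj a v := ((nv a).2 (Or.inr (Or.inl rfl))).symm
  have haw : G.Adj a w := ((nw a).2 (Or.inr (Or.inl rfl))).symm
  obtain ⟨o, ho1, ho2, hn⟩ := third hG hvw hav haw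
  have hao : G.Adj a o := (hn o).2 (Or.inr (Or.inr rfl))
  have hou : Ou G a o := by
    refine ⟨hao, fun x hx hx' => ?_⟩
    rcases (hn x).1 hx with rfl | rfl | rfl
    · rcases (nv o).1 hx'.symm with h | h | h
      · exact ho2 h
      · exact hao.ne h.symm
      · exact nad (h ▸ hao)
    · rcases (nw o).1 hx'.symm with h | h | h
      · exact ho1 h
      · exact hao.ne h.symm
      · exact nad (h ▸ hao)
    · exact absurd rfl hx'.ne
  refine ⟨⟨⟨o, hou⟩, v, hav, hv⟩, ?_⟩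
  rw [hou.eq_out hG]
  exact hn

lemma Cen.loc (hG : CC G) {v : V} (h : Cen G v) : ∃ w a d, Dia G v w a d := by
  obtain ⟨w, a, d, hwa, hwd, had, nv, h1, h2⟩ := noO_nbrs hG h.1
  have hvw : G.Adj v w := (nv w).2 (Or.inl rfl)
  have hva : G.Adj v a := (nv a).2 (Or.inr (Or.inl rfl))
  have hvd : G.Adj v d := (nv d).2 (Or.inr (Or.inr rfl))
  have nad : ¬ G.Adj a d := by
    intro h3
    apply h.2
    intro x y hx hy hxy
    rcases (nv x).1 hx with rfl | rfl | rfl <;> rcases (nv y).1 hy with rfl | rfl | rfl <;>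
      first | exact absurd rfl hxy | assumption | (apply SimpleGraph.Adj.symm; assumption)
  have nw : ∀ u, G.Adj w u ↔ u = v ∨ u = a ∨ u = d := nb3 hG hva.ne hvd.ne had hvw.symm h1 h2
  have hw : ¬ HasO G w := by
    rintro ⟨o, ho⟩
    rcases (nw o).1 ho.1 with rfl | rfl | rfl
    · exact ho.2 a h1 hva
    · exact ho.2 v hvw.symm hva.symm
    · exact ho.2 v hvw.symm hvd.symm
  have hKw : ¬ K G w := fun hK => nad (hK a d h1 h2 had)
  have ta := tip_aux hG hvw.ne hwa had nad nv nw h.1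
  have td := tip_aux hG hvw.ne hwd had.symm (fun h' => nad h'.symm)
    (fun u => by rw [nv u]; tauto) (fun u => by rw [nw u]; tauto) h.1
  exact ⟨w, a, d, hvw.ne, hva.ne, hvd.ne, hwa, hwd, had, nad, h, ⟨hw, hKw⟩, ta.1, td.1, nv, nw,
    ta.2, td.2⟩

lemma K.noO (hG : CC G) {v : V} (h : K G v) : ¬ HasO G v := by
  rintro ⟨o, ho⟩
  obtain ⟨a, b, hab, hao, hbo, hn, hadj⟩ := ho.nbrs hG
  have ha : G.Adj v a := (hn a).2 (Or.inl rfl)
  exact ho.2 a ha (h o a ho.1 ha hao.symm)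

lemma K.closed (hG : CC G) {v u : V} (h : K G v) (hvu : G.Adj v u) :
    K G u ∧ ∀ x, G.Adj u x → x = v ∨ G.Adj v x := by
  obtain ⟨a, b, c, hab, hac, hbc, hn, hadj⟩ := hG.nb v
  have ha : G.Adj v a := (hn a).2 (Or.inl rfl)
  have hb : G.Adj v b := (hn b).2 (Or.inr (Or.inl rfl))
  have hc : G.Adj v c := (hn c).2 (Or.inr (Or.inr rfl))
  have key : ∀ x y z, x ≠ y → x ≠ z → y ≠ z → G.Adj v x → G.Adj v y → G.Adj v z →
      K G x ∧ ∀ t, G.Adj x t → t = v ∨ G.Adj v t := by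
    intro x y z hxy hxz hyz hx hy hz
    have nx := nb3 hG hy.ne hz.ne hyz hx.symm (h x y hx hy hxy) (h x z hx hz hxz)
    have hyz' := h y z hy hz hyz
    refine ⟨?_, ?_⟩
    · intro s t hs ht hst
      rcases (nx s).1 hs with rfl | rfl | rfl <;> rcases (nx t).1 ht with rfl | rfl | rfl <;>
        first | exact absurd rfl hst | assumption | (apply SimpleGraph.Adj.symm; assumption)
    · intro t ht
      rcases (nx t).1 ht with rfl | rfl | rfl
      · exact Or.inl rfl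
      · exact Or.inr hy
      · exact Or.inr hz
  rcases (hn u).1 hvu with rfl | rfl | rfl
  · exact key _ _ _ hab hac hbc ha hb hc
  · exact key _ _ _ hab.symm hbc hac hb ha hc
  · exact key _ _ _ hac.symm hbc.symm hab hc ha hb

lemma Tip.loc (hG : CC G) {a : V} (h : Tip G a) : ∃ v w d, Dia G v w a d := by
  obtain ⟨hO, u, hu, hu'⟩ := h
  have hK : ¬ K G u := by
    intro hK
    have := (hK.closed hG hu.symm).1
    exact this.noO hG hO
  obtain ⟨w, a', d', D⟩ := Cen.loc hG (v := u) ⟨hu', hK⟩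
  rcases (D.nv a).1 hu.symm with rfl | rfl | rfl
  · exact absurd hO D.cw.1
  · exact ⟨u, w, d', D⟩
  · exact ⟨u, w, a', D.swap2⟩

/-- a plain triangle -/
structure Tri (G : SimpleGraph V) (v a b : V) : Prop where
  va : v ≠ a
  vb : v ≠ b
  ab : a ≠ b
  pv : P G v
  pa : P G a
  pb : P G b
  nv : ∀ u, G.Adj v u ↔ u = a ∨ u = b ∨ u = out G v
  na : ∀ u, G.Adj a u ↔ u = v ∨ u = b ∨ u = out G a
  nb : ∀ u, G.Adj b u ↔ u = v ∨ u = a ∨ u = out G b
  oa : a ≠ out G v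
  ob : b ≠ out G v

lemma P.loc (hG : CC G) {v : V} (h : P G v) : ∃ a b, Tri G v a b := by
  obtain ⟨a, b, hab, hao, hbo, hn, hadj⟩ := h.1.out.nbrs hG
  have ha : G.Adj v a := (hn a).2 (Or.inl rfl)
  have hb : G.Adj v b := (hn b).2 (Or.inr (Or.inl rfl))
  have hOa := h.2 a ha
  have hOb := h.2 b hb
  have hva : v ≠ out G a := by
    intro e
    have := hOa.out
    rw [← e] at this
    exact this.2 b hadj hb
  have hba : b ≠ out G a := by
    intro e
    have := hOa.out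
    rw [← e] at this
    exact this.2 v ha.symm hb.symm
  have hvb : v ≠ out G b := by
    intro e
    have := hOb.out
    rw [← e] at this
    exact this.2 a hadj.symm ha
  have hab' : a ≠ out G b := by
    intro e
    have := hOb.out
    rw [← e] at this
    exact this.2 v hb.symm ha.symm
  have na := nb3 hG hb.ne hva hba ha.symm hadj hOa.out.1
  have nb := nb3 hG ha.ne hvb hab' hb.symm hadj.symm hOb.out.1
  refine ⟨a, b, ha.ne, hb.ne, hab, h, ⟨hOa, ?_⟩, ⟨hOb, ?_⟩, hn, na, nb, hao, hbo⟩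
  · intro u hu
    rcases (na u).1 hu with rfl | rfl | rfl
    · exact h.1
    · exact hOb
    · exact hOa.out'
  · intro u hu
    rcases (nb u).1 hu with rfl | rfl | rfl
    · exact h.1
    · exact hOa
    · exact hOb.out'

lemma trich (G : SimpleGraph V) (v : V) : K G v ∨ Cen G v ∨ Tip G v ∨ P G v := by
  by_cases hO : HasO G v
  · by_cases h : ∀ u, G.Adj v u → HasO G u
    · exact Or.inr (Or.inr (Or.inr ⟨hO, h⟩))
    · push Not at h
      exact Or.inr (Or.inr (Or.inl ⟨hO, h⟩))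
  · by_cases hK : K G v
    · exact Or.inl hK
    · exact Or.inr (Or.inl ⟨hO, hK⟩)

lemma P.not_tip {v : V} (h : P G v) : ¬ Tip G v := fun h' => by
  obtain ⟨-, u, hu, hu'⟩ := h'
  exact hu' (h.2 u hu)

lemma P.not_cen {v : V} (h : P G v) : ¬ Cen G v := fun h' => h'.1 h.1

lemma Tip.not_cen {v : V} (h : Tip G v) : ¬ Cen G v := fun h' => h'.1 h.1

lemma out_cases (G : SimpleGraph V) {v : V} (h : HasO G v) : P G (out G v) ∨ Tip G (out G v) := by
  have h' := h.out'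
  rcases trich G (out G v) with h1 | h1 | h1 | h1
  · by_cases h : ∀ u, G.Adj (out G v) u → HasO G u
    · exact Or.inl ⟨h', h⟩
    · push Not at h
      exact Or.inr ⟨h', h⟩
  · exact absurd h' h1.1
  · exact Or.inr h1
  · exact Or.inl h1

end Q96.CF
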