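import Pool.Agent.Q96.CF.Fin

/-!
# Claw-free cubic graphs: the packing colouring
-/

set_option autoImplicit false
set_option linter.unusedSectionVars false

namespace Q96.CF

open SimpleGraph Finset

variable {V : Type*} [Fintype V] {G : SimpleGraph V}
variable {ι : V → ℕ} {I : Finset V} {φ : Finset V → Finset V} {S : Finset V}

lemma nbr_plain {u w : V} (h : G.Adj u w) : w = out G u ∨ w ∈ T G u := by
  by_cases h1 : w = out G u
  · exact Or.inl h1
  · exact Or.inr (mem_T.2 (Or.inr ⟨h, h1⟩))

lemma P.nbr {u w : V} (hu : P G u) (h : G.Adj u w) : HasO G w := hu.2 w h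

/-- a plain vertex next to a tip is the outer neighbour of the tip -/
lemma plain_tip {v w a d u : V} (D : Dia G v w a d) (hu : P G u) (h : G.Adj u a) :
    u = out G a := by
  rcases (D.na u).1 h.symm with rfl | rfl | rfl
  · exact absurd D.cv hu.not_cen
  · exact absurd D.cw hu.not_cen
  · rfl

lemma plain_cen {v w a d u : V} (D : Dia G v w a d) (hu : P G u) : ¬ G.Adj u v := by
  intro h
  exact D.cv.1 (hu.2 v h)

lemma X3_mix (hG : CC G) (hI : Ind G I) (hS : Sel G I φ S) {u v : V} (hu : u ∈ S) (huI : u ∉ I)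
    (hv : C0 G ι v) : ¬ G.Adj u v ∧ ¬ ∃ w, G.Adj u w ∧ G.Adj w v := by
  obtain ⟨w', a, d, D⟩ := hv.1.loc hG
  have hPu := hS.pl u hu
  have key : ∀ a d, Dia G v w' a d → ¬ G.Adj u a := by
    intro a d D h
    have h1 := plain_tip D hPu h
    have h2 : out G u = a := by rw [h1, D.ta.1.out_out hG]
    have h3 := hS.nI u hu huI
    rw [h2] at h3
    exact (hI.pl a h3).not_tip D.ta
  refine ⟨plain_cen D hPu, ?_⟩
  rintro ⟨w, huw, hwv⟩
  rcases (D.nv w).1 hwv.symm with rfl | rfl | rfl
  · exact plain_cen D.swap1 hPu huw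
  · exact key _ _ D huw
  · exact key _ _ D.swap2 huw

lemma X3_pack (hG : CC G) (hι : Function.Injective ι) (hI : Ind G I) (hS : Sel G I φ S)
    {u v : V} (huv : u ≠ v) (hu : X3 G ι I S u) (hv : X3 G ι I S v) :
    ¬ G.Adj u v ∧ ¬ ∃ w, G.Adj u w ∧ G.Adj w v := by
  rcases hu with ⟨hu, huI⟩ | hu <;> rcases hv with ⟨hv, hvI⟩ | hv
  · have hPu := hS.pl u hu
    have hPv := hS.pl v hv
    refine ⟨?_, ?_⟩
    · intro h
      rcases nbr_plain h with h1 | h1
      · apply hvI; rw [h1]; exact hS.nI u hu huI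
      · exact huv (hS.un u hu v hv h1).symm
    · rintro ⟨w, huw, hwv⟩
      rcases nbr_plain huw with h1 | h1
      · have hwI : w ∈ I := by rw [h1]; exact hS.nI u hu huI
        rcases nbr_plain hwv with h2 | h2
        · rw [h1, hPu.1.out_out hG] at h2
          exact huv h2.symm
        · exact hvI (hI.cl w hwI v h2)
      · have hTw := T_eq hG hPu h1
        have hPw := hPu.mem hG h1
        have hwI : w ∉ I := fun h => huI (hI.cl w h u (mem_T_symm hG hPu h1))
        rcases nbr_plain hwv with h2 | h2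
        · apply hwI
          have := hS.nI v hv hvI
          rw [h2, hPw.1.out_out hG] at this
          exact this
        · rw [hTw] at h2
          exact huv (hS.un u hu v hv h2).symm
  · exact X3_mix hG hI hS hu huI hv
  · have := X3_mix hG hI hS hv hvI hu
    refine ⟨fun h => this.1 h.symm, ?_⟩
    rintro ⟨w, h1, h2⟩
    exact this.2 ⟨w, h2.symm, h1.symm⟩
  · obtain ⟨c, a, d, D⟩ := hu.1.loc hG
    have hc : ¬ C0 G ι c := by
      rcases D.C0_xor hι with h | h
      · exact h.2
      · exact absurd hu h.1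
    have h1 : ¬ G.Adj u v := by
      intro h
      rcases (D.nv v).1 h with rfl | rfl | rfl
      · exact hc hv
      · exact D.ta.not_cen hv.1
      · exact D.td.not_cen hv.1
    refine ⟨h1, ?_⟩
    rintro ⟨w, huw, hwv⟩
    have key : ∀ a d, Dia G u c a d → ¬ G.Adj a v := by
      intro a d D h
      rcases (D.na v).1 h with rfl | rfl | rfl
      · exact huv rfl
      · exact hc hv
      · exact hv.1.1 D.ta.1.out'
    rcases (D.nv w).1 huw with rfl | rfl | rfl
    · rcases (D.nw v).1 hwv with rfl | rfl | rfl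
      · exact huv rfl
      · exact D.ta.not_cen hv.1
      · exact D.td.not_cen hv.1
    · exact key _ _ D hwv
    · exact key _ _ D.swap2 hwv

lemma B_tip (hG : CC G) (hι : Function.Injective ι) {v c a d : V} (hv : B G ι S v)
    (D : Dia G v c a d) :
    C0 G ι c ∧ ¬ Xd G ι S (out G a) ∧ (R G ι S).Reachable v (out G a) := by
  have hc : C0 G ι c := by
    rcases D.C0_xor hι with h | h
    · exact absurd h.1 hv.2.1
    · exact h.2
  have hXc : Xd G ι S c := Or.inr (Or.inl hc)
  have hva : (R G ι S).Adj v a := by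
    obtain ⟨x, y, hxy, hx, hy⟩ := hv.2.2.1 v (Reachable.refl v)
    rcases (D.nv x).1 hx.1 with rfl | rfl | rfl
    · exact absurd hXc hx.2.2
    · exact hx
    · rcases (D.nv y).1 hy.1 with rfl | rfl | rfl
      · exact absurd hXc hy.2.2
      · exact hy
      · exact absurd rfl hxy
  have hao : (R G ι S).Adj a (out G a) := by
    obtain ⟨x, y, hxy, hx, hy⟩ := hv.2.2.1 a hva.reachable
    rcases (D.na x).1 hx.1 with h1 | h1 | h1
    · rcases (D.na y).1 hy.1 with h2 | h2 | h2
      · exact absurd (h1.trans h2.symm) hxy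
      · subst h2; exact absurd hXc hy.2.2
      · rw [← h2]; exact hy
    · subst h1; exact absurd hXc hx.2.2
    · rw [← h1]; exact hx
  exact ⟨hc, hao.2.2, hva.reachable.trans hao.reachable⟩

def W3 (G : SimpleGraph V) (u v : V) : Prop :=
  G.Adj u v ∨ (∃ w, G.Adj u w ∧ G.Adj w v) ∨ ∃ w1 w2, G.Adj u w1 ∧ G.Adj w1 w2 ∧ G.Adj w2 v

lemma W3.symm {u v : V} (h : W3 G u v) : W3 G v u := by
  rcases h with h | ⟨w, h1, h2⟩ | ⟨w1, w2, h1, h2, h3⟩
  · exact Or.inl h.symm
  · exact Or.inr (Or.inl ⟨w, h2.symm, h1.symm⟩)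
  · exact Or.inr (Or.inr ⟨w2, w1, h3.symm, h2.symm, h1.symm⟩)

lemma X4_SS (hG : CC G) (hI : Ind G I) (hS : Sel G I φ S)
    (hφ : ∀ v ∈ I, ∀ w ∈ I, ¬ Str G v → ¬ Str G w → φ (T G v) = φ (T G w) → T G v = T G w)
    {u v : V} (huv : u ≠ v) (hu : u ∈ S) (huI : u ∈ I) (hv : v ∈ S) (hvI : v ∈ I) :
    ¬ W3 G u v := by
  have hPu := hS.pl u hu
  have hPv := hS.pl v hv
  have hT : v ∉ T G u := fun h => huv (hS.un u hu v hv h).symm
  have hT' : u ∉ T G v := fun h => huv (hS.un v hv u hu h)
  have h1 : ¬ G.Adj u v := by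
    intro h
    rcases nbr_plain h with h1 | h1
    · exact hI.ind u huI (h1 ▸ hvI)
    · exact hT h1
  rintro (h | ⟨w, huw, hwv⟩ | ⟨w1, w2, h2, h3, h4⟩)
  · exact h1 h
  · rcases nbr_plain huw with h2 | h2
    · rcases out_cases G hPu.1 with h3 | h3
      · rw [← h2] at h3
        rcases nbr_plain hwv with h4 | h4
        · rw [h2, hPu.1.out_out hG] at h4
          exact huv h4.symm
        · have h5 : w ∈ I := hI.cl v hvI w (mem_T_symm hG h3 h4)
          rw [h2] at h5
          exact hI.ind u huI h5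
      · rw [← h2] at h3
        obtain ⟨c, c', d, D⟩ := h3.loc hG
        have h4 := plain_tip D hPv hwv.symm
        rw [h2, hPu.1.out_out hG] at h4
        exact huv h4.symm
    · have hwI := hI.cl u huI w h2
      rcases nbr_plain hwv with h3 | h3
      · exact hI.ind w hwI (h3 ▸ hvI)
      · rw [T_eq hG hPu h2] at h3
        exact hT h3
  · have g1 := nbr_plain h2
    have g2 := nbr_plain h4.symm
    rcases g1 with g1 | g1 <;> rcases g2 with g2 | g2
    · rcases out_cases G hPu.1 with h5 | h5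
      · rcases nbr_plain h3 with h6 | h6
        · rw [g1, hPu.1.out_out hG] at h6
          rw [h6] at g2
          exact hI.ind v hvI (g2 ▸ huI)
        · have hs : ¬ Str G u := fun hs => h5.not_tip (hS.st u hu huI hs)
          rw [g1] at h6
          have hPw2 : P G w2 := h5.mem hG h6
          have hs' : ¬ Str G v := fun hs => by
            have := hS.st v hv hvI hs
            rw [← g2] at this
            exact hPw2.not_tip this
          have e1 := hS.ph u hu huI hs
          have e2 := hS.ph v hv hvI hs'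
          have e3 := T_eq hG h5 h6
          rw [g2] at e3
          have e4 := hφ u huI v hvI hs hs' (by rw [← e1, ← e2, e3])
          apply hT
          rw [e4]
          exact self_T v
      · rw [← g1] at h5
        obtain ⟨c, c', d, D⟩ := h5.loc hG
        rcases (D.na w2).1 h3 with h6 | h6 | h6
        · have := hPv.1.out'
          rw [← g2, h6] at this
          exact D.cv.1 this
        · have := hPv.1.out'
          rw [← g2, h6] at this
          exact D.cw.1 this
        · rw [g1, hPu.1.out_out hG] at h6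
          rw [h6] at g2
          exact hI.ind v hvI (g2 ▸ huI)
    · -- w1 = out u, w2 in the triangle of v
      have hw2I := hI.cl v hvI w2 g2
      rcases nbr_plain h3.symm with h6 | h6
      · rw [g1] at h6
        have h7 : u = w2 := by
          rw [← hPu.1.out_out hG, h6, (hPv.mem hG g2).1.out_out hG]
        rw [← h7] at g2
        exact hT' g2
      · have := hI.cl w2 hw2I w1 h6
        rw [g1] at this
        exact hI.ind u huI this
    · have hw1I := hI.cl u huI w1 g1
      rcases nbr_plain h3 with h6 | h6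
      · rw [g2] at h6
        have h7 : v = w1 := by
          rw [← hPv.1.out_out hG, h6, (hPu.mem hG g1).1.out_out hG]
        rw [← h7] at g1
        exact hT g1
      · have := hI.cl w1 hw1I w2 h6
        rw [g2] at this
        exact hI.ind v hvI this
    · have hw1I := hI.cl u huI w1 g1
      have hw2I := hI.cl v hvI w2 g2
      rcases nbr_plain h3 with h6 | h6
      · exact hI.ind w1 hw1I (h6 ▸ hw2I)
      · rw [T_eq hG hPu g1] at h6
        apply hT
        rw [← T_eq hG hPu h6, T_eq hG hPv g2]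
        exact self_T v

lemma X4_SB (hG : CC G) (hι : Function.Injective ι) (hI : Ind G I) (hS : Sel G I φ S)
    (hmin : ∀ t, P G t → t ∉ S → t ∈ I → Tip G (out G t) → ¬ Cyc G ι S t)
    {u v : V} (hu : u ∈ S) (huI : u ∈ I) (hv : B G ι S v) : ¬ W3 G u v := by
  have hPu := hS.pl u hu
  obtain ⟨c, a, d, D⟩ := hv.1.loc hG
  have key : ∀ a d, Dia G v c a d → ¬ G.Adj u a := by
    intro a d D h
    have h1 := plain_tip D hPu h
    have h2 := (B_tip hG hι hv D).2.1
    rw [← h1] at h2
    exact h2 (Or.inl hu)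
  have keyo : ∀ a d, Dia G v c a d → ¬ G.Adj u (out G a) := by
    intro a d D h
    have h2 := B_tip hG hι hv D
    rcases out_cases G D.ta.1 with h3 | h3
    · have h4 : out G (out G a) = a := D.ta.1.out_out hG
      rcases nbr_plain h.symm with h5 | h5
      · rw [h4] at h5
        subst h5
        exact hPu.not_tip D.ta
      · have h6 : out G a ∈ I := hI.cl u huI _ (mem_T_symm hG h3 h5)
        refine hmin (out G a) h3 (fun hs => h2.2.1 (Or.inl hs)) h6 ?_ (hv.2.2.1.reach h2.2.2)
        rw [h4]; exact D.ta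
    · obtain ⟨c', c'', d', D'⟩ := h3.loc hG
      have h5 := plain_tip D' hPu h
      rw [D.ta.1.out_out hG] at h5
      subst h5
      exact hPu.not_tip D.ta
  have h1 : ¬ G.Adj u v := plain_cen D hPu
  have h1' : ¬ G.Adj u c := plain_cen D.swap1 hPu
  have key2 : ∀ a d, Dia G v c a d → ∀ w, G.Adj u w → ¬ G.Adj w a := by
    intro a d D w hw hwa
    rcases (D.na w).1 hwa.symm with rfl | rfl | rfl
    · exact h1 hw
    · exact h1' hw
    · exact keyo a d D hw
  rintro (h | ⟨w, huw, hwv⟩ | ⟨w1, w2, h2, h3, h4⟩)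
  · exact h1 h
  · rcases (D.nv w).1 hwv.symm with rfl | rfl | rfl
    · exact h1' huw
    · exact key _ _ D huw
    · exact key _ _ D.swap2 huw
  · rcases (D.nv w2).1 h4.symm with rfl | rfl | rfl
    · rcases (D.nw w1).1 h3.symm with rfl | rfl | rfl
      · exact h1 h2
      · exact key _ _ D h2
      · exact key _ _ D.swap2 h2
    · exact key2 _ _ D _ h2 h3
    · exact key2 _ _ D.swap2 _ h2 h3

lemma X4_BB (hG : CC G) (hι : Function.Injective ι)
    {u v : V} (huv : u ≠ v) (hu : B G ι S u) (hv : B G ι S v) : ¬ W3 G u v := by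
  obtain ⟨c, a, d, D⟩ := hu.1.loc hG
  have hc : C0 G ι c := (B_tip hG hι hu D).1
  have hvc : v ≠ c := by rintro rfl; exact hv.2.1 hc
  have h1 : ¬ G.Adj u v := by
    intro h
    rcases (D.nv v).1 h with h | rfl | rfl
    · exact hvc h
    · exact D.ta.not_cen hv.1
    · exact D.td.not_cen hv.1
  have h2 : ¬ G.Adj c v := by
    intro h
    rcases (D.nw v).1 h with h | rfl | rfl
    · exact huv h.symm
    · exact D.ta.not_cen hv.1
    · exact D.td.not_cen hv.1
  have h3 : ∀ a d, Dia G u c a d → ¬ G.Adj a v := by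
    intro a d D h
    rcases (D.na v).1 h with h | h | h
    · exact huv h.symm
    · exact hvc h
    · subst h; exact hv.1.1 D.ta.1.out'
  have h4 : ∀ a d, Dia G u c a d → ¬ G.Adj (out G a) v := by
    intro a d D h
    obtain ⟨-, hX, hr⟩ := B_tip hG hι hu D
    have hXv : ¬ Xd G ι S v := (hv.2.2.1 v (Reachable.refl v)).not_Xd
    have hadj : (R G ι S).Adj (out G a) v := ⟨h, hX, hXv⟩
    have hr2 := hr.trans hadj.reachable
    have e1 := hu.2.2.2 v hr2 hv.1 hv.2.1
    have e2 := hv.2.2.2 u hr2.symm hu.1 hu.2.1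
    exact huv (hι (le_antisymm e1 e2))
  have h5 : ∀ a d, Dia G u c a d → ∀ w, G.Adj a w → ¬ G.Adj w v := by
    intro a d D w hw hwv
    rcases (D.na w).1 hw with rfl | rfl | rfl
    · exact h1 hwv
    · exact h2 hwv
    · exact h4 a d D hwv
  rintro (h | ⟨w, huw, hwv⟩ | ⟨w1, w2, g2, g3, g4⟩)
  · exact h1 h
  · rcases (D.nv w).1 huw with rfl | rfl | rfl
    · exact h2 hwv
    · exact h3 _ _ D hwv
    · exact h3 _ _ D.swap2 hwv
  · rcases (D.nv w1).1 g2 with rfl | rfl | rfl
    · rcases (D.nw w2).1 g3 with rfl | rfl | rfl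
      · exact h1 g4
      · exact h3 _ _ D g4
      · exact h3 _ _ D.swap2 g4
    · exact h5 _ _ D _ g3 g4
    · exact h5 _ _ D.swap2 _ g3 g4

lemma X4_pack (hG : CC G) (hι : Function.Injective ι) (hI : Ind G I) (hS : Sel G I φ S)
    (hφ : ∀ v ∈ I, ∀ w ∈ I, ¬ Str G v → ¬ Str G w → φ (T G v) = φ (T G w) → T G v = T G w)
    (hmin : ∀ t, P G t → t ∉ S → t ∈ I → Tip G (out G t) → ¬ Cyc G ι S t)
    {u v : V} (huv : u ≠ v) (hu : X4 G ι I S u) (hv : X4 G ι I S v) : ¬ W3 G u v := by
  rcases hu with ⟨hu, huI⟩ | hu <;> rcases hv with ⟨hv, hvI⟩ | hv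
  · exact X4_SS hG hI hS hφ huv hu huI hv hvI
  · exact X4_SB hG hι hI hS hmin hu huI hv
  · exact fun h => X4_SB hG hι hI hS hmin hv hvI hu h.symm
  · exact X4_BB hG hι huv hu hv

open Classical in
/-- the rank of a vertex of a `K₄` -/
noncomputable def rk (G : SimpleGraph V) (ι : V → ℕ) (v : V) : ℕ :=
  (Finset.univ.filter (fun u => G.Adj v u ∧ ι u < ι v)).card

lemma rk_le (hG : CC G) (v : V) : rk G ι v ≤ 3 := by
  classical
  obtain ⟨a, b, c, hab, hac, hbc, hn, -⟩ := hG.nb v
  have h1 : (Finset.univ.filter (fun u => G.Adj v u ∧ ι u < ι v)) ⊆ {a, b, c} := by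
    intro u hu
    rw [Finset.mem_filter] at hu
    simp only [Finset.mem_insert, Finset.mem_singleton]
    exact (hn u).1 hu.2.1
  unfold rk
  calc _ ≤ _ := Finset.card_le_card (by convert h1)
    _ ≤ 3 := Finset.card_le_three

lemma rk_lt (hG : CC G) {u v : V} (hu : K G u) (huv : G.Adj u v) (h : ι u < ι v) :
    rk G ι u < rk G ι v := by
  classical
  obtain ⟨hv, hcl⟩ := hu.closed hG huv
  unfold rk
  apply Finset.card_lt_card
  rw [Finset.ssubset_iff_of_subset]
  · refine ⟨u, ?_, ?_⟩
    · rw [Finset.mem_filter]; exact ⟨Finset.mem_univ _, huv.symm, h⟩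
    · rw [Finset.mem_filter]; rintro ⟨-, h1, -⟩; exact h1.ne rfl
  · intro w hw
    rw [Finset.mem_filter] at hw ⊢
    refine ⟨Finset.mem_univ _, ?_, hw.2.2.trans h⟩
    have hwv : v ≠ w := by rintro rfl; exact absurd hw.2.2 (by omega)
    exact hu v w huv hw.2.1 hwv

lemma rk_ne (hG : CC G) (hι : Function.Injective ι) {u v : V} (hu : K G u) (huv : G.Adj u v) :
    rk G ι u ≠ rk G ι v := by
  have hv := (hu.closed hG huv).1
  rcases lt_trichotomy (ι u) (ι v) with h | h | h
  · exact (rk_lt hG hu huv h).ne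
  · exact absurd (hι h) huv.ne
  · exact (rk_lt hG hv huv.symm h).ne'

lemma K.reach (hG : CC G) {u v : V} (hu : K G u) (h : G.Reachable u v) :
    K G v ∧ (v = u ∨ G.Adj u v) := by
  obtain ⟨p⟩ := h
  induction p with
  | nil => exact ⟨hu, Or.inl rfl⟩
  | @cons a b c hab q ih =>
    obtain ⟨hb, hcl⟩ := hu.closed hG hab
    obtain ⟨hc, h1⟩ := ih hb
    refine ⟨hc, ?_⟩
    rcases h1 with rfl | h1
    · exact Or.inr hab
    · exact hcl _ h1

theorem main (hG : CC G) : ∃ c : V → Fin 4,
    (∀ u v, u ≠ v → c u = c v → (c u = 0 ∨ c u = 1) → ¬ G.Adj u v) ∧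
    (∀ u v, u ≠ v → c u = c v → c u = 2 → ¬ G.Adj u v ∧ ¬ ∃ w, G.Adj u w ∧ G.Adj w v) ∧
    (∀ u v, u ≠ v → c u = c v → c u = 3 → ¬ W3 G u v) := by
  classical
  let ι : V → ℕ := fun v => (Fintype.equivFin V v : ℕ)
  have hι : Function.Injective ι := fun a b h =>
    (Fintype.equivFin V).injective (Fin.ext h)
  obtain ⟨I, φ, S, hI, hS, hφ, hmin⟩ := exists_min hG hι
  obtain ⟨f⟩ := RR_col (I := I) hG hι hS
  let c : V → Fin 4 := fun v =>
    if K G v then ⟨rk G ι v, by have := rk_le (ι := ι) hG v; omega⟩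
    else if X3 G ι I S v then 2
    else if X4 G ι I S v then 3
    else ⟨(f v : ℕ), by have := (f v).2; omega⟩
  have cK : ∀ v, K G v → (c v : ℕ) = rk G ι v := by
    intro v hv; simp only [c]; rw [if_pos hv]
  have c3 : ∀ v, ¬ K G v → X3 G ι I S v → c v = 2 := by
    intro v hv h; simp only [c]; rw [if_neg hv, if_pos h]
  have c4 : ∀ v, ¬ K G v → ¬ X3 G ι I S v → X4 G ι I S v → c v = 3 := by
    intro v hv h h'; simp only [c]; rw [if_neg hv, if_neg h, if_pos h']
  have cf : ∀ v, ¬ K G v → ¬ X3 G ι I S v → ¬ X4 G ι I S v → (c v : ℕ) = (f v : ℕ) := by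
    intro v hv h h'; simp only [c]; rw [if_neg hv, if_neg h, if_neg h']
  have hKK : ∀ u v, u ≠ v → c u = c v → G.Reachable u v → ¬ K G u := by
    intro u v huv hc hr hu
    obtain ⟨hv, h1⟩ := hu.reach hG hr
    rcases h1 with h1 | h1
    · exact huv h1.symm
    · apply rk_ne hG hι hu h1
      rw [← cK u hu, ← cK v hv, hc]
  have hfl : ∀ v, (f v : ℕ) < 2 := fun v => (f v).2
  refine ⟨c, ?_, ?_, ?_⟩
  · intro u v huv hc h01 hadj
    have hu := hKK u v huv hc hadj.reachable
    have hv := hKK v u huv.symm hc.symm hadj.symm.reachable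
    have key : ∀ x, ¬ K G x → (c x = 0 ∨ c x = 1) → ¬ X3 G ι I S x ∧ ¬ X4 G ι I S x := by
      intro x hx h
      have h3 : ¬ X3 G ι I S x := by
        intro h3
        rw [c3 x hx h3] at h
        rcases h with h | h <;> exact absurd h (by decide)
      refine ⟨h3, ?_⟩
      intro h4
      rw [c4 x hx h3 h4] at h
      rcases h with h | h <;> exact absurd h (by decide)
    have ku := key u hu h01
    have kv := key v hv (by rw [← hc]; exact h01)
    have hRR : (RR G ι I S).Adj u v := ⟨hadj, ⟨hu, ku.1, ku.2⟩, ⟨hv, kv.1, kv.2⟩⟩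
    apply f.valid hRR
    apply Fin.ext
    rw [← cf u hu ku.1 ku.2, ← cf v hv kv.1 kv.2, hc]
  · intro u v huv hc h2
    have key : ∀ x, ¬ K G x → c x = 2 → X3 G ι I S x := by
      intro x hx h
      by_contra h3
      by_cases h4 : X4 G ι I S x
      · rw [c4 x hx h3 h4] at h; exact absurd h (by decide)
      · have h5 := cf x hx h3 h4
        rw [h] at h5
        have := hfl x
        simp at h5
        omega
    have aux : G.Reachable u v → ¬ G.Adj u v ∧ ¬ ∃ w, G.Adj u w ∧ G.Adj w v := by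
      intro hr
      have hu := hKK u v huv hc hr
      have hv := hKK v u huv.symm hc.symm hr.symm
      exact X3_pack hG hι hI hS huv (key u hu h2) (key v hv (by rw [← hc]; exact h2))
    refine ⟨fun h => (aux h.reachable).1 h, ?_⟩
    rintro ⟨w, h3, h4⟩
    exact (aux (h3.reachable.trans h4.reachable)).2 ⟨w, h3, h4⟩
  · intro u v huv hc h2 hW
    have key : ∀ x, ¬ K G x → c x = 3 → X4 G ι I S x := by
      intro x hx h
      by_contra h4
      by_cases h3 : X3 G ι I S x
      · rw [c3 x hx h3] at h; exact absurd h (by decide)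
      · have h5 := cf x hx h3 h4
        rw [h] at h5
        have := hfl x
        simp at h5
        omega
    have hr : G.Reachable u v := by
      rcases hW with h | ⟨w, h3, h4⟩ | ⟨w1, w2, h3, h4, h5⟩
      · exact h.reachable
      · exact h3.reachable.trans h4.reachable
      · exact (h3.reachable.trans h4.reachable).trans h5.reachable
    have hu := hKK u v huv hc hr
    have hv := hKK v u huv.symm hc.symm hr.symm
    exact X4_pack hG hι hI hS hφ hmin huv (key u hu h2) (key v hv (by rw [← hc]; exact h2)) hW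

end Q96.CF
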