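import Pool.Agent.Q96.CF.Loc

/-!
# Claw-free cubic graphs: the independent set of plain triangles and the selection
-/

set_option autoImplicit false

namespace Q96.CF

open SimpleGraph Finset

variable {V : Type*} [Fintype V] {G : SimpleGraph V}

open Classical in
/-- the triangle of a plain vertex -/
noncomputable def T (G : SimpleGraph V) (v : V) : Finset V :=
  Finset.univ.filter (fun u => u = v ∨ (G.Adj v u ∧ u ≠ out G v))

lemma mem_T {v u : V} : u ∈ T G v ↔ u = v ∨ (G.Adj v u ∧ u ≠ out G v) := by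
  simp [T]

lemma self_T (v : V) : v ∈ T G v := mem_T.2 (Or.inl rfl)

lemma Tri.swap {v a b : V} (h : Tri G v a b) : Tri G v b a :=
  ⟨h.vb, h.va, h.ab.symm, h.pv, h.pb, h.pa, fun u => by rw [h.nv u]; tauto, h.nb, h.na, h.ob, h.oa⟩

lemma Tri.oe (hG : CC G) {v a b : V} (h : Tri G v a b) : v ≠ out G a := by
  intro e
  have h1 := h.pa.1.out
  rw [← e] at h1
  exact h1.2 b ((h.na b).2 (Or.inr (Or.inl rfl))) ((h.nv b).2 (Or.inr (Or.inl rfl)))

lemma Tri.rot (hG : CC G) {v a b : V} (h : Tri G v a b) : Tri G a b v := by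
  have h1 : b ≠ out G a := by
    intro e
    have h1 := h.pa.1.out
    rw [← e] at h1
    exact h1.2 v ((h.na v).2 (Or.inl rfl)) ((h.nb v).2 (Or.inl rfl))
  refine ⟨h.ab, h.va.symm, h.vb.symm, h.pa, h.pb, h.pv, fun u => by rw [h.na u]; tauto,
    fun u => by rw [h.nb u]; tauto, fun u => by rw [h.nv u], h1, h.oe hG⟩

lemma Tri.T_eq (hG : CC G) {v a b : V} (h : Tri G v a b) (u : V) :
    u ∈ T G v ↔ u = v ∨ u = a ∨ u = b := by
  rw [mem_T, h.nv u]
  constructor
  · rintro (h1 | ⟨h1 | h1 | h1, h2⟩)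
    · exact Or.inl h1
    · exact Or.inr (Or.inl h1)
    · exact Or.inr (Or.inr h1)
    · exact absurd h1 h2
  · rintro (h1 | h1 | h1)
    · exact Or.inl h1
    · subst h1; exact Or.inr ⟨Or.inl rfl, h.oa⟩
    · subst h1; exact Or.inr ⟨Or.inr (Or.inl rfl), h.ob⟩

lemma T_eq (hG : CC G) {v u : V} (hv : P G v) (hu : u ∈ T G v) : T G u = T G v := by
  obtain ⟨a, b, h⟩ := hv.loc hG
  ext x
  rw [h.T_eq hG]
  rcases (h.T_eq hG u).1 hu with rfl | rfl | rfl
  · rw [h.T_eq hG]
  · rw [(h.rot hG).T_eq hG]; tauto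
  · rw [((h.rot hG).rot hG).T_eq hG]; tauto

lemma P.mem (hG : CC G) {v u : V} (hv : P G v) (hu : u ∈ T G v) : P G u := by
  obtain ⟨a, b, h⟩ := hv.loc hG
  rcases (h.T_eq hG u).1 hu with rfl | rfl | rfl
  · exact h.pv
  · exact h.pa
  · exact h.pb

lemma mem_T_symm (hG : CC G) {v u : V} (hv : P G v) (hu : u ∈ T G v) : v ∈ T G u := by
  rw [T_eq hG hv hu]; exact self_T v

lemma card_T (hG : CC G) {v : V} (hv : P G v) : (T G v).card = 3 := by
  classical
  obtain ⟨a, b, h⟩ := hv.loc hG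
  have : T G v = {v, a, b} := by
    ext x
    rw [h.T_eq hG]
    simp
  rw [this, Finset.card_eq_three]
  exact ⟨v, a, b, h.va, h.vb, h.ab, rfl⟩

lemma out_not_mem (hG : CC G) {v u : V} (hv : P G v) (hu : u ∈ T G v) : out G u ∉ T G v := by
  intro h
  rw [← T_eq hG hv hu] at h
  rcases mem_T.1 h with h1 | h1
  · exact ((hv.mem hG hu).1.out.1.ne h1.symm)
  · exact h1.2 rfl

/-- a union of plain triangles without edges between different triangles, maximal -/
structure Ind (G : SimpleGraph V) (I : Finset V) : Prop where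
  pl : ∀ v ∈ I, P G v
  cl : ∀ v ∈ I, ∀ u ∈ T G v, u ∈ I
  ind : ∀ v ∈ I, out G v ∉ I

lemma exists_I (hG : CC G) : ∃ I : Finset V, Ind G I ∧
    ∀ v, P G v → v ∉ I → ∃ u ∈ T G v, out G u ∈ I := by
  classical
  have hne : (Finset.univ.filter (fun I : Finset V => Ind G I)).Nonempty :=
    ⟨∅, by simp only [Finset.mem_filter, Finset.mem_univ, true_and]
           exact ⟨by simp, by simp, by simp⟩⟩
  obtain ⟨I, hI, hmax⟩ := Finset.exists_max_image _ (fun I : Finset V => I.card) hne
  simp only [Finset.mem_filter, Finset.mem_univ, true_and] at hI hmax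
  refine ⟨I, hI, fun v hv hvI => ?_⟩
  by_contra hno
  push Not at hno
  have hI' : Ind G (I ∪ T G v) := by
    refine ⟨?_, ?_, ?_⟩
    · intro u hu
      rcases Finset.mem_union.1 hu with h | h
      · exact hI.pl u h
      · exact hv.mem hG h
    · intro u hu w hw
      rcases Finset.mem_union.1 hu with h | h
      · exact Finset.mem_union_left _ (hI.cl u h w hw)
      · rw [T_eq hG hv h] at hw
        exact Finset.mem_union_right _ hw
    · intro u hu hu'
      rcases Finset.mem_union.1 hu with h | h <;> rcases Finset.mem_union.1 hu' with h' | h'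
      · exact hI.ind u h h'
      · apply hno _ h'
        rw [(hI.pl u h).1.out_out hG]
        exact h
      · exact hno _ h h'
      · exact out_not_mem hG hv h h'
  have h1 := hmax _ hI'
  have h2 : I ⊂ I ∪ T G v := by
    rw [Finset.ssubset_iff_of_subset Finset.subset_union_left]
    exact ⟨v, Finset.mem_union_right _ (self_T v), hvI⟩
  exact absurd (Finset.card_lt_card h2) (not_lt.2 h1)

/-- the triangle of `v` is next to a diamond -/
def Str (G : SimpleGraph V) (v : V) : Prop := ∃ t ∈ T G v, Tip G (out G t)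

lemma exists_phi (hG : CC G) {I : Finset V} (hI : Ind G I) : ∃ φ : Finset V → Finset V,
    (∀ v ∈ I, ¬ Str G v → ∃ u ∈ T G v, T G (out G u) = φ (T G v)) ∧
    (∀ v ∈ I, ∀ w ∈ I, ¬ Str G v → ¬ Str G w → φ (T G v) = φ (T G w) → T G v = T G w) := by
  classical
  let ι := {s : Finset V // ∃ v ∈ I, ¬ Str G v ∧ s = T G v}
  let N : ι → Finset (Finset V) := fun s => s.1.image (fun u => T G (out G u))
  have hmem : ∀ s : ι, ∀ u ∈ s.1, u ∈ I ∧ ¬ Str G u ∧ s.1 = T G u ∧ P G (out G u) := by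
    rintro ⟨s, v, hv, hs, rfl⟩ u hu
    have hPu := (hI.pl v hv).mem hG hu
    have hT := T_eq hG (hI.pl v hv) hu
    refine ⟨hI.cl v hv u hu, ?_, hT.symm, ?_⟩
    · rintro ⟨t, ht, ht'⟩
      exact hs ⟨t, by rwa [hT] at ht, ht'⟩
    · rcases out_cases G hPu.1 with h | h
      · exact h
      · exact absurd ⟨u, hu, h⟩ hs
  have hall : ∀ s : Finset ι, s.card ≤ (s.biUnion N).card := by
    intro s
    have h1 : (s.biUnion (fun x => x.1)).card = 3 * s.card := by
      rw [Finset.card_biUnion]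
      · rw [Finset.sum_congr rfl (g := fun _ => 3), Finset.sum_const, smul_eq_mul, mul_comm]
        rintro ⟨x, v, hv, hs, rfl⟩ -
        exact card_T hG (hI.pl v hv)
      · intro x _ y _ hxy
        rw [Function.onFun, Finset.disjoint_left]
        intro u hu hu'
        apply hxy
        apply Subtype.ext
        rw [(hmem x u hu).2.2.1, (hmem y u hu').2.2.1]
    have h2 : ((s.biUnion N).biUnion (fun x => x)).card ≤ (s.biUnion N).card * 3 := by
      apply Finset.card_biUnion_le_card_mul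
      intro t ht
      rw [Finset.mem_biUnion] at ht
      obtain ⟨x, -, hx⟩ := ht
      rw [Finset.mem_image] at hx
      obtain ⟨u, hu, rfl⟩ := hx
      exact (card_T hG (hmem x u hu).2.2.2).le
    have h3 : (s.biUnion (fun x => x.1)).card ≤ ((s.biUnion N).biUnion (fun x => x)).card := by
      apply Finset.card_le_card_of_injOn (fun u => out G u)
      · intro u hu
        rw [Finset.mem_coe, Finset.mem_biUnion] at hu
        obtain ⟨x, hx, hu⟩ := hu
        rw [Finset.mem_coe, Finset.mem_biUnion]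
        refine ⟨T G (out G u), ?_, self_T _⟩
        rw [Finset.mem_biUnion]
        exact ⟨x, hx, Finset.mem_image_of_mem _ hu⟩
      · intro u hu w hw huw
        rw [Finset.mem_coe, Finset.mem_biUnion] at hu hw
        obtain ⟨x, hx, hu⟩ := hu
        obtain ⟨y, hy, hw⟩ := hw
        have hu' := (hI.pl _ (hmem x u hu).1).1.out_out hG
        have hw' := (hI.pl _ (hmem y w hw).1).1.out_out hG
        simp only at huw
        rw [← hu', ← hw', huw]
    omega
  obtain ⟨f, hf, hf'⟩ := (Finset.all_card_le_biUnion_card_iff_exists_injective N).1 hall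
  refine ⟨fun s => if h : ∃ v ∈ I, ¬ Str G v ∧ s = T G v then f ⟨s, h⟩ else ∅, ?_, ?_⟩
  · intro v hv hs
    have h : ∃ w ∈ I, ¬ Str G w ∧ T G v = T G w := ⟨v, hv, hs, rfl⟩
    simp only
    rw [dif_pos h]
    have := hf' ⟨T G v, h⟩
    simp only [N, Finset.mem_image] at this
    exact this
  · intro v hv w hw hsv hsw he
    have h : ∃ x ∈ I, ¬ Str G x ∧ T G v = T G x := ⟨v, hv, hsv, rfl⟩
    have h' : ∃ x ∈ I, ¬ Str G x ∧ T G w = T G x := ⟨w, hw, hsw, rfl⟩
    simp only at he
    rw [dif_pos h, dif_pos h'] at he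
    have := hf he
    exact congrArg Subtype.val this

/-- an admissible selection: one vertex in every plain triangle -/
structure Sel (G : SimpleGraph V) (I : Finset V) (φ : Finset V → Finset V) (S : Finset V) :
    Prop where
  pl : ∀ u ∈ S, P G u
  ex : ∀ v, P G v → ∃ u ∈ S, u ∈ T G v
  un : ∀ u ∈ S, ∀ w ∈ S, w ∈ T G u → w = u
  nI : ∀ u ∈ S, u ∉ I → out G u ∈ I
  st : ∀ u ∈ S, u ∈ I → Str G u → Tip G (out G u)
  ph : ∀ u ∈ S, u ∈ I → ¬ Str G u → T G (out G u) = φ (T G u)

lemma exists_Sel (hG : CC G) {I : Finset V}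
    (hI' : ∀ v, P G v → v ∉ I → ∃ u ∈ T G v, out G u ∈ I) (hI : Ind G I)
    {φ : Finset V → Finset V}
    (hφ : ∀ v ∈ I, ¬ Str G v → ∃ u ∈ T G v, T G (out G u) = φ (T G v)) :
    ∃ S, Sel G I φ S := by
  classical
  let ι : V → ℕ := fun v => (Fintype.equivFin V v : ℕ)
  have hι : Function.Injective ι := fun a b h =>
    (Fintype.equivFin V).injective (Fin.ext h)
  let Q : V → Prop := fun u => P G u ∧ (u ∉ I → out G u ∈ I) ∧
    (u ∈ I → Str G u → Tip G (out G u)) ∧ (u ∈ I → ¬ Str G u → T G (out G u) = φ (T G u))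
  have hStr : ∀ v, P G v → ∀ u ∈ T G v, (Str G u ↔ Str G v) := by
    intro v hv u hu
    unfold Str
    rw [T_eq hG hv hu]
  have hII : ∀ v, P G v → ∀ u ∈ T G v, (u ∈ I ↔ v ∈ I) := by
    intro v hv u hu
    constructor
    · intro h
      exact hI.cl u h v (mem_T_symm hG hv hu)
    · intro h
      exact hI.cl v h u hu
  have hQ : ∀ v, P G v → ∃ u ∈ T G v, Q u := by
    intro v hv
    by_cases hvI : v ∈ I
    · by_cases hs : Str G v
      · obtain ⟨t, ht, ht'⟩ := hs
        refine ⟨t, ht, hv.mem hG ht, fun h => absurd ((hII v hv t ht).2 hvI) h, fun _ _ => ht', ?_⟩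
        intro _ h
        exact absurd ((hStr v hv t ht).2 ⟨t, ht, ht'⟩) h
      · obtain ⟨u, hu, hu'⟩ := hφ v hvI hs
        refine ⟨u, hu, hv.mem hG hu, fun h => absurd ((hII v hv u hu).2 hvI) h, ?_, ?_⟩
        · intro _ h
          exact absurd ((hStr v hv u hu).1 h) hs
        · intro _ _
          rw [hu', T_eq hG hv hu]
    · obtain ⟨u, hu, hu'⟩ := hI' v hv hvI
      refine ⟨u, hu, hv.mem hG hu, fun _ => hu', ?_, ?_⟩
      · intro h
        exact absurd ((hII v hv u hu).1 h) hvI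
      · intro h
        exact absurd ((hII v hv u hu).1 h) hvI
  refine ⟨Finset.univ.filter (fun u => Q u ∧ ∀ w ∈ T G u, Q w → ι u ≤ ι w), ?_, ?_, ?_, ?_, ?_, ?_⟩
  · intro u hu
    rw [Finset.mem_filter] at hu
    exact hu.2.1.1
  · intro v hv
    obtain ⟨u, hu, hQu⟩ := hQ v hv
    have hne : ((T G v).filter Q).Nonempty := ⟨u, Finset.mem_filter.2 ⟨hu, hQu⟩⟩
    obtain ⟨m, hm, hmin⟩ := Finset.exists_min_image _ ι hne
    rw [Finset.mem_filter] at hm
    refine ⟨m, ?_, hm.1⟩
    rw [Finset.mem_filter]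
    refine ⟨Finset.mem_univ _, hm.2, fun w hw hQw => ?_⟩
    rw [T_eq hG hv hm.1] at hw
    exact hmin w (Finset.mem_filter.2 ⟨hw, hQw⟩)
  · intro u hu w hw hwu
    rw [Finset.mem_filter] at hu hw
    have h1 := hu.2.2 w hwu hw.2.1
    have h2 := hw.2.2 u (mem_T_symm hG hu.2.1.1 hwu) hu.2.1
    exact hι (le_antisymm h2 h1)
  · intro u hu
    rw [Finset.mem_filter] at hu
    exact hu.2.1.2.1
  · intro u hu
    rw [Finset.mem_filter] at hu
    exact hu.2.1.2.2.1
  · intro u hu
    rw [Finset.mem_filter] at hu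
    exact hu.2.1.2.2.2

end Q96.CF
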